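import Mathlib

set_option autoImplicit false

namespace Pool.Agent.Results.MP_61673a_co.ParityBound

/-- `A` contains no three elements `a < b < c` with `a + c = 2 b`. -/
def ThreeFree (A : Finset ℕ) : Prop :=
  ∀ a ∈ A, ∀ b ∈ A, ∀ c ∈ A, a < b → b < c → a + c ≠ 2 * b

/-- `A` is a maximal 3-free subset of `[n] = {1, ..., n}`. -/
def IsMaxThreeFree (n : ℕ) (A : Finset ℕ) : Prop :=
  A ⊆ Finset.Icc 1 n ∧ ThreeFree A ∧
    ∀ x ∈ Finset.Icc 1 n, x ∉ A → ¬ ThreeFree (insert x A)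

/-- `μ(n)`: the least size of a maximal 3-free subset of `[n]`. -/
noncomputable def mu (n : ℕ) : ℕ := sInf {k | ∃ A : Finset ℕ, IsMaxThreeFree n A ∧ A.card = k}

theorem cover {n : ℕ} {A : Finset ℕ} (h : IsMaxThreeFree n A) (x : ℕ) (hx : x ∈ Finset.Icc 1 n) :
    (∃ a ∈ A, ∃ b ∈ A, x + a = 2 * b) ∨ (∃ a ∈ A, ∃ c ∈ A, a < c ∧ a + c = 2 * x) := by
  by_cases hxA : x ∈ A
  · exact Or.inl ⟨x, hxA, x, hxA, by ring⟩
  · have := h.2.2 x hx hxA
    unfold ThreeFree at this
    push Not at this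
    obtain ⟨a, ha, b, hb, c, hc, hab, hbc, he⟩ := this
    rw [Finset.mem_insert] at ha hb hc
    rcases ha with ha | ha
    · have hb' : b ∈ A := by
        rcases hb with hb | hb
        · omega
        · exact hb
      have hc' : c ∈ A := by
        rcases hc with hc | hc
        · omega
        · exact hc
      exact Or.inl ⟨c, hc', b, hb', by omega⟩
    · rcases hb with hb | hb
      · have hc' : c ∈ A := by
          rcases hc with hc | hc
          · omega
          · exact hc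
        exact Or.inr ⟨a, ha, c, hc', by omega, by omega⟩
      · rcases hc with hc | hc
        · exact Or.inl ⟨a, ha, b, hb, by omega⟩
        · exact absurd he (h.2.1 a ha b hb c hc hab hbc)

/-- the elements of `A` with residue `i` modulo `4` -/
def cl (A : Finset ℕ) (i : ℕ) : Finset ℕ := A.filter (fun a => a % 4 = i)

/-- pairs `a < c` with sum `r` modulo `4` -/
def PP (A : Finset ℕ) (r : ℕ) : Finset (ℕ × ℕ) :=
  (A ×ˢ A).filter (fun p => p.1 < p.2 ∧ (p.1 + p.2) % 4 = r)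

/-- ordered pairs `a ≠ c` with sum `r` modulo `4` -/
def QQ (A : Finset ℕ) (r : ℕ) : Finset (ℕ × ℕ) :=
  (A ×ˢ A).filter (fun p => p.1 ≠ p.2 ∧ (p.1 + p.2) % 4 = r)

theorem two_PP (A : Finset ℕ) (r : ℕ) : 2 * (PP A r).card ≤ (QQ A r).card := by
  have hinj : Set.InjOn Prod.swap ((PP A r : Finset (ℕ × ℕ)) : Set (ℕ × ℕ)) :=
    Prod.swap_injective.injOn
  have h1 : ((PP A r).image Prod.swap).card = (PP A r).card := Finset.card_image_of_injOn hinj
  have hd : Disjoint (PP A r) ((PP A r).image Prod.swap) := by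
    rw [Finset.disjoint_left]
    rintro ⟨a, c⟩ hp hq
    rw [Finset.mem_image] at hq
    obtain ⟨⟨a', c'⟩, hq, he⟩ := hq
    simp only [Prod.swap_prod_mk, Prod.mk.injEq] at he
    unfold PP at hp hq
    simp only [Finset.mem_filter] at hp hq
    omega
  have hs : PP A r ∪ (PP A r).image Prod.swap ⊆ QQ A r := by
    intro p hp
    rw [Finset.mem_union, Finset.mem_image] at hp
    unfold PP at hp
    unfold QQ
    simp only [Finset.mem_filter, Finset.mem_product] at hp ⊢
    rcases hp with ⟨h1, h2, h3⟩ | ⟨q, ⟨h1, h2, h3⟩, rfl⟩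
    · exact ⟨h1, by omega, h3⟩
    · refine ⟨⟨h1.2, h1.1⟩, ?_, ?_⟩
      · simp only [Prod.fst_swap, Prod.snd_swap]; omega
      · simp only [Prod.fst_swap, Prod.snd_swap]; omega
  have h2 := Finset.card_le_card hs
  rw [Finset.card_union_of_disjoint hd, h1] at h2
  omega

theorem QQ0 (A : Finset ℕ) : (QQ A 0).card + (cl A 0).card + (cl A 2).card ≤
    (cl A 0).card ^ 2 + (cl A 2).card ^ 2 + 2 * ((cl A 1).card * (cl A 3).card) := by
  have hs : QQ A 0 ⊆ ((cl A 0).offDiag ∪ (cl A 2).offDiag) ∪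
      ((cl A 1 ×ˢ cl A 3) ∪ (cl A 3 ×ˢ cl A 1)) := by
    rintro ⟨a, c⟩ hp
    unfold QQ at hp
    unfold cl
    simp only [Finset.mem_filter, Finset.mem_product, Finset.mem_union, Finset.mem_offDiag] at hp ⊢
    obtain ⟨⟨h1, h2⟩, h3, h4⟩ := hp
    have h5 : a % 4 < 4 := Nat.mod_lt _ (by norm_num)
    have h6 : c % 4 < 4 := Nat.mod_lt _ (by norm_num)
    simp only [h1, h2, true_and, ne_eq, h3, not_false_eq_true, and_true]
    omega
  have h1 := Finset.card_le_card hs
  have h2 := Finset.card_union_le ((cl A 0).offDiag ∪ (cl A 2).offDiag)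
      ((cl A 1 ×ˢ cl A 3) ∪ (cl A 3 ×ˢ cl A 1))
  have h3 := Finset.card_union_le (cl A 0).offDiag (cl A 2).offDiag
  have h4 := Finset.card_union_le (cl A 1 ×ˢ cl A 3) (cl A 3 ×ˢ cl A 1)
  rw [Finset.offDiag_card, Finset.offDiag_card] at h3
  rw [Finset.card_product, Finset.card_product] at h4
  have h5 : (cl A 0).card ≤ (cl A 0).card * (cl A 0).card := Nat.le_mul_self _
  have h6 : (cl A 2).card ≤ (cl A 2).card * (cl A 2).card := Nat.le_mul_self _
  have h7 : (cl A 3).card * (cl A 1).card = (cl A 1).card * (cl A 3).card := Nat.mul_comm _ _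
  rw [pow_two, pow_two]
  omega

theorem QQ2 (A : Finset ℕ) : (QQ A 2).card + (cl A 1).card + (cl A 3).card ≤
    (cl A 1).card ^ 2 + (cl A 3).card ^ 2 + 2 * ((cl A 0).card * (cl A 2).card) := by
  have hs : QQ A 2 ⊆ ((cl A 1).offDiag ∪ (cl A 3).offDiag) ∪
      ((cl A 0 ×ˢ cl A 2) ∪ (cl A 2 ×ˢ cl A 0)) := by
    rintro ⟨a, c⟩ hp
    unfold QQ at hp
    unfold cl
    simp only [Finset.mem_filter, Finset.mem_product, Finset.mem_union, Finset.mem_offDiag] at hp ⊢
    obtain ⟨⟨h1, h2⟩, h3, h4⟩ := hp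
    have h5 : a % 4 < 4 := Nat.mod_lt _ (by norm_num)
    have h6 : c % 4 < 4 := Nat.mod_lt _ (by norm_num)
    simp only [h1, h2, true_and, ne_eq, h3, not_false_eq_true, and_true]
    omega
  have h1 := Finset.card_le_card hs
  have h2 := Finset.card_union_le ((cl A 1).offDiag ∪ (cl A 3).offDiag)
      ((cl A 0 ×ˢ cl A 2) ∪ (cl A 2 ×ˢ cl A 0))
  have h3 := Finset.card_union_le (cl A 1).offDiag (cl A 3).offDiag
  have h4 := Finset.card_union_le (cl A 0 ×ˢ cl A 2) (cl A 2 ×ˢ cl A 0)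
  rw [Finset.offDiag_card, Finset.offDiag_card] at h3
  rw [Finset.card_product, Finset.card_product] at h4
  have h5 : (cl A 1).card ≤ (cl A 1).card * (cl A 1).card := Nat.le_mul_self _
  have h6 : (cl A 3).card ≤ (cl A 3).card * (cl A 3).card := Nat.le_mul_self _
  have h7 : (cl A 2).card * (cl A 0).card = (cl A 0).card * (cl A 2).card := Nat.mul_comm _ _
  rw [pow_two, pow_two]
  omega

/-- elements of parity `p` -/
def par (A : Finset ℕ) (p : ℕ) : Finset ℕ := A.filter (fun a => a % 2 = p)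

theorem par0 (A : Finset ℕ) : (par A 0).card = (cl A 0).card + (cl A 2).card := by
  have : par A 0 = cl A 0 ∪ cl A 2 := by
    ext a
    unfold par cl
    simp only [Finset.mem_filter, Finset.mem_union]
    by_cases h : a ∈ A
    · simp only [h, true_and]; omega
    · simp [h]
  rw [this, Finset.card_union_of_disjoint]
  rw [Finset.disjoint_left]
  intro a ha hb
  unfold cl at ha hb
  simp only [Finset.mem_filter] at ha hb
  omega

theorem par1 (A : Finset ℕ) : (par A 1).card = (cl A 1).card + (cl A 3).card := by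
  have : par A 1 = cl A 1 ∪ cl A 3 := by
    ext a
    unfold par cl
    simp only [Finset.mem_filter, Finset.mem_union]
    by_cases h : a ∈ A
    · simp only [h, true_and]; omega
    · simp [h]
  rw [this, Finset.card_union_of_disjoint]
  rw [Finset.disjoint_left]
  intro a ha hb
  unfold cl at ha hb
  simp only [Finset.mem_filter] at ha hb
  omega

theorem card_par (A : Finset ℕ) : A.card = (par A 0).card + (par A 1).card := by
  have : A = par A 0 ∪ par A 1 := by
    ext a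
    unfold par
    simp only [Finset.mem_filter, Finset.mem_union]
    have := Nat.mod_two_eq_zero_or_one a
    tauto
  conv_lhs => rw [this]
  rw [Finset.card_union_of_disjoint]
  rw [Finset.disjoint_left]
  intro a ha hb
  unfold par at ha hb
  simp only [Finset.mem_filter] at ha hb
  omega

theorem count0 {n : ℕ} {A : Finset ℕ} (h : IsMaxThreeFree n A) :
    n / 2 ≤ (par A 0).card * A.card + (PP A 0).card := by
  have h1 : (Finset.range (n / 2)).image (fun i => 2 * i + 2) ⊆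
      ((par A 0 ×ˢ A).image (fun p => 2 * p.2 - p.1)) ∪
        ((PP A 0).image (fun p => (p.1 + p.2) / 2)) := by
    intro x hx
    rw [Finset.mem_image] at hx
    obtain ⟨i, hi, rfl⟩ := hx
    rw [Finset.mem_range] at hi
    rw [Finset.mem_union, Finset.mem_image, Finset.mem_image]
    rcases cover h (2 * i + 2) (by rw [Finset.mem_Icc]; omega) with ⟨a, ha, b, hb, he⟩ |
      ⟨a, ha, c, hc, hac, he⟩
    · left
      refine ⟨(a, b), ?_, ?_⟩
      · rw [Finset.mem_product]
        refine ⟨?_, hb⟩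
        unfold par
        rw [Finset.mem_filter]
        refine ⟨ha, ?_⟩
        show a % 2 = 0
        omega
      · show 2 * b - a = 2 * i + 2
        omega
    · right
      refine ⟨(a, c), ?_, ?_⟩
      · unfold PP
        rw [Finset.mem_filter, Finset.mem_product]
        refine ⟨⟨ha, hc⟩, hac, ?_⟩
        show (a + c) % 4 = 0
        omega
      · show (a + c) / 2 = 2 * i + 2
        omega
  have h2 := Finset.card_le_card h1
  rw [Finset.card_image_of_injective _ (by intro i j hij; simp only at hij; omega),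
    Finset.card_range] at h2
  have h3 := Finset.card_union_le ((par A 0 ×ˢ A).image (fun p => 2 * p.2 - p.1))
        ((PP A 0).image (fun p => (p.1 + p.2) / 2))
  have h4 : ((par A 0 ×ˢ A).image (fun p : ℕ × ℕ => 2 * p.2 - p.1)).card ≤
      (par A 0).card * A.card := by
    rw [← Finset.card_product]
    exact Finset.card_image_le
  have h5 : ((PP A 0).image (fun p : ℕ × ℕ => (p.1 + p.2) / 2)).card ≤ (PP A 0).card :=
    Finset.card_image_le
  omega

theorem count1 {n : ℕ} {A : Finset ℕ} (h : IsMaxThreeFree n A) :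
    (n + 1) / 2 ≤ (par A 1).card * A.card + (PP A 2).card := by
  have h1 : (Finset.range ((n + 1) / 2)).image (fun i => 2 * i + 1) ⊆
      ((par A 1 ×ˢ A).image (fun p => 2 * p.2 - p.1)) ∪
        ((PP A 2).image (fun p => (p.1 + p.2) / 2)) := by
    intro x hx
    rw [Finset.mem_image] at hx
    obtain ⟨i, hi, rfl⟩ := hx
    rw [Finset.mem_range] at hi
    rw [Finset.mem_union, Finset.mem_image, Finset.mem_image]
    rcases cover h (2 * i + 1) (by rw [Finset.mem_Icc]; omega) with ⟨a, ha, b, hb, he⟩ |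
      ⟨a, ha, c, hc, hac, he⟩
    · left
      refine ⟨(a, b), ?_, ?_⟩
      · rw [Finset.mem_product]
        refine ⟨?_, hb⟩
        unfold par
        rw [Finset.mem_filter]
        refine ⟨ha, ?_⟩
        show a % 2 = 1
        omega
      · show 2 * b - a = 2 * i + 1
        omega
    · right
      refine ⟨(a, c), ?_, ?_⟩
      · unfold PP
        rw [Finset.mem_filter, Finset.mem_product]
        refine ⟨⟨ha, hc⟩, hac, ?_⟩
        show (a + c) % 4 = 2
        omega
      · show (a + c) / 2 = 2 * i + 1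
        omega
  have h2 := Finset.card_le_card h1
  rw [Finset.card_image_of_injective _ (by intro i j hij; simp only at hij; omega),
    Finset.card_range] at h2
  have h3 := Finset.card_union_le ((par A 1 ×ˢ A).image (fun p => 2 * p.2 - p.1))
        ((PP A 2).image (fun p => (p.1 + p.2) / 2))
  have h4 : ((par A 1 ×ˢ A).image (fun p : ℕ × ℕ => 2 * p.2 - p.1)).card ≤
      (par A 1).card * A.card := by
    rw [← Finset.card_product]
    exact Finset.card_image_le
  have h5 : ((PP A 2).image (fun p : ℕ × ℕ => (p.1 + p.2) / 2)).card ≤ (PP A 2).card :=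
    Finset.card_image_le
  omega

/-- the optimisation over the parity densities -/
theorem opt (n k m M : ℝ) (hk : m + M = k) (hm : 0 ≤ m) (hmM : m ≤ M)
    (h1 : n ≤ 2 * m * k + m ^ 2 + M ^ 2 / 2) (h2 : n ≤ k ^ 2 + (m ^ 2 + M ^ 2) / 2) :
    n ≤ (27 / 2 - 5 * √6) * k ^ 2 := by
  have hs : √(6 : ℝ) ^ 2 = 6 := Real.sq_sqrt (by norm_num)
  have hs0 : 0 ≤ √(6 : ℝ) := Real.sqrt_nonneg _
  have hs2 : 2 ≤ √(6 : ℝ) := Real.le_sqrt_of_sq_le (by norm_num)
  have hs3 : √(6 : ℝ) ≤ 5 / 2 := by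
    rw [Real.sqrt_le_left (by norm_num)]; norm_num
  have hM : M = k - m := by linarith
  have hk0 : 0 ≤ k := by linarith
  subst hM
  set y := √(6 : ℝ) - 2 with hy
  have hy0 : 0 ≤ y := by linarith
  have hy1 : y ≤ 1 / 2 := by linarith
  have hy2 : y ^ 2 = 2 - 4 * y := by
    rw [hy]; nlinarith
  have hl : 27 / 2 - 5 * √(6 : ℝ) = 7 / 2 - 5 * y := by rw [hy]; ring
  rw [hl]
  rcases le_total m (y * k) with hc | hc
  · have h3 : m * k ≤ y * k * k := mul_le_mul_of_nonneg_right hc hk0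
    have h4 : m ^ 2 ≤ (y * k) ^ 2 := pow_le_pow_left₀ hm hc 2
    have h5 : (y * k) ^ 2 = (2 - 4 * y) * k ^ 2 := by rw [mul_pow, hy2]
    nlinarith
  · have h3 : 0 ≤ (m - y * k) * (k - m - y * k) := by
      apply mul_nonneg (by linarith)
      nlinarith
    have h5 : (y * k) ^ 2 = (2 - 4 * y) * k ^ 2 := by rw [mul_pow, hy2]
    nlinarith

theorem bound {n : ℕ} {A : Finset ℕ} (h : IsMaxThreeFree n A) :
    (n : ℝ) ≤ (27 / 2 - 5 * √6) * (A.card : ℝ) ^ 2 := by
  have c0 := count0 h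
  have c1 := count1 h
  have p0 := two_PP A 0
  have p2 := two_PP A 2
  have q0 := QQ0 A
  have q2 := QQ2 A
  have e0 := par0 A
  have e1 := par1 A
  have hk := card_par A
  generalize (par A 0).card = e at *
  generalize (par A 1).card = o at *
  generalize (PP A 0).card = P0 at *
  generalize (PP A 2).card = P2 at *
  generalize (QQ A 0).card = Q0 at *
  generalize (QQ A 2).card = Q2 at *
  generalize (cl A 0).card = a0 at *
  generalize (cl A 1).card = a1 at *
  generalize (cl A 2).card = a2 at *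
  generalize (cl A 3).card = a3 at *
  generalize A.card = k at *
  have hn1 : n ≤ 2 * (n / 2) + 1 := by omega
  have hn2 : n ≤ 2 * ((n + 1) / 2) := by omega
  have hn3 : n = n / 2 + (n + 1) / 2 := by omega
  generalize n / 2 = n0 at *
  generalize (n + 1) / 2 = n1 at *
  subst e0 e1 hk
  have R1 : (n : ℝ) ≤ 2 * n0 + 1 := by exact_mod_cast hn1
  have R2 : (n : ℝ) ≤ 2 * n1 := by exact_mod_cast hn2
  have R3 : (n : ℝ) = n0 + n1 := by exact_mod_cast hn3
  have C0 : (n0 : ℝ) ≤ (a0 + a2) * (a0 + a2 + (a1 + a3)) + P0 := by exact_mod_cast c0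
  have C1 : (n1 : ℝ) ≤ (a1 + a3) * (a0 + a2 + (a1 + a3)) + P2 := by exact_mod_cast c1
  have T0 : 2 * (P0 : ℝ) + a0 + a2 ≤ a0 ^ 2 + a2 ^ 2 + 2 * (a1 * a3) := by
    have : 2 * P0 + a0 + a2 ≤ a0 ^ 2 + a2 ^ 2 + 2 * (a1 * a3) := by omega
    exact_mod_cast this
  have T2 : 2 * (P2 : ℝ) + a1 + a3 ≤ a1 ^ 2 + a3 ^ 2 + 2 * (a0 * a2) := by
    have : 2 * P2 + a1 + a3 ≤ a1 ^ 2 + a3 ^ 2 + 2 * (a0 * a2) := by omega
    exact_mod_cast this
  have z0 : (0 : ℝ) ≤ a0 := Nat.cast_nonneg _
  have z1 : (0 : ℝ) ≤ a1 := Nat.cast_nonneg _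
  have z2 : (0 : ℝ) ≤ a2 := Nat.cast_nonneg _
  have z3 : (0 : ℝ) ≤ a3 := Nat.cast_nonneg _
  have z02 : (0 : ℝ) ≤ a0 * a2 := mul_nonneg z0 z2
  have z13 : (0 : ℝ) ≤ a1 * a3 := mul_nonneg z1 z3
  push_cast
  rcases le_total (a0 + a2) (a1 + a3) with hc | hc
  · have hc' : (a0 : ℝ) + a2 ≤ a1 + a3 := by exact_mod_cast hc
    rcases Nat.eq_zero_or_pos (a0 + a2) with hz | hz
    · obtain ⟨rfl, rfl⟩ : a0 = 0 ∧ a2 = 0 := by omega
      simp only [Nat.cast_zero, zero_add, add_zero] at *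
      rcases Nat.eq_zero_or_pos (a1 + a3) with hz1 | hz1
      · obtain ⟨rfl, rfl⟩ : a1 = 0 ∧ a3 = 0 := by omega
        simp only [Nat.cast_zero] at *
        nlinarith
      · rcases Nat.lt_or_ge 1 (a1 + a3) with hz2 | hz2
        · have hz2' : (2 : ℝ) ≤ a1 + a3 := by exact_mod_cast hz2
          have hs3 : √(6 : ℝ) ≤ 5 / 2 := by
            rw [Real.sqrt_le_left (by norm_num)]; norm_num
          have hh : (n : ℝ) ≤ (a1 + a3) ^ 2 := by nlinarith [sq_nonneg ((a1 : ℝ) - a3)]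
          nlinarith [sq_nonneg ((a1 : ℝ) + a3)]
        · have h1 : (a1 : ℝ) + a3 = 1 := by
            have : a1 + a3 = 1 := by omega
            exact_mod_cast this
          have hs3 : √(6 : ℝ) ≤ 5 / 2 := by
            rw [Real.sqrt_le_left (by norm_num)]; norm_num
          have hz : (a1 : ℝ) ^ 2 + a3 ^ 2 + 2 * (a1 * a3) = 1 := by
            have : ((a1 : ℝ) + a3) ^ 2 = 1 := by rw [h1]; norm_num
            linarith [this]
          rw [h1]
          nlinarith
    · have hz' : (1 : ℝ) ≤ a0 + a2 := by exact_mod_cast hz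
      apply opt _ _ ((a0 : ℝ) + a2) ((a1 : ℝ) + a3) (by ring) (by positivity) hc'
      · nlinarith [sq_nonneg ((a1 : ℝ) - a3)]
      · nlinarith
  · have hc' : (a1 : ℝ) + a3 ≤ a0 + a2 := by exact_mod_cast hc
    apply opt _ _ ((a1 : ℝ) + a3) ((a0 : ℝ) + a2) (by ring) (by positivity) hc'
    · nlinarith [sq_nonneg ((a0 : ℝ) - a2)]
    · nlinarith

theorem key (n e o : ℝ) (he : 0 ≤ e) (ho : 0 ≤ o) (h : 2 * e ≤ o)
    (hn : n ≤ 2 * e * (e + o) + e ^ 2 + o ^ 2 / 2) : n ≤ (e + o) ^ 2 := by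
  nlinarith [mul_nonneg (sub_nonneg.2 h) (by positivity : 0 ≤ o + 2 * e)]

/-- `√n ≤ |A|` when one parity class has at most a third of the elements -/
theorem third {n : ℕ} {A : Finset ℕ} (h : IsMaxThreeFree n A)
    (h3 : 3 * (par A 0).card ≤ A.card ∨ 3 * (par A 1).card ≤ A.card) :
    n ≤ A.card ^ 2 := by
  have c0 := count0 h
  have c1 := count1 h
  have p0 := two_PP A 0
  have p2 := two_PP A 2
  have q0 := QQ0 A
  have q2 := QQ2 A
  have e0 := par0 A
  have e1 := par1 A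
  have hk := card_par A
  generalize (par A 0).card = e at *
  generalize (par A 1).card = o at *
  generalize (PP A 0).card = P0 at *
  generalize (PP A 2).card = P2 at *
  generalize (QQ A 0).card = Q0 at *
  generalize (QQ A 2).card = Q2 at *
  generalize (cl A 0).card = a0 at *
  generalize (cl A 1).card = a1 at *
  generalize (cl A 2).card = a2 at *
  generalize (cl A 3).card = a3 at *
  generalize A.card = k at *
  have hn1 : n ≤ 2 * (n / 2) + 1 := by omega
  have hn2 : n ≤ 2 * ((n + 1) / 2) := by omega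
  have hn3 : n = n / 2 + (n + 1) / 2 := by omega
  generalize n / 2 = n0 at *
  generalize (n + 1) / 2 = n1 at *
  subst e0 e1 hk
  have R1 : (n : ℝ) ≤ 2 * n0 + 1 := by exact_mod_cast hn1
  have R2 : (n : ℝ) ≤ 2 * n1 := by exact_mod_cast hn2
  have R3 : (n : ℝ) = n0 + n1 := by exact_mod_cast hn3
  have C0 : (n0 : ℝ) ≤ (a0 + a2) * (a0 + a2 + (a1 + a3)) + P0 := by exact_mod_cast c0
  have C1 : (n1 : ℝ) ≤ (a1 + a3) * (a0 + a2 + (a1 + a3)) + P2 := by exact_mod_cast c1
  have T0 : 2 * (P0 : ℝ) + a0 + a2 ≤ a0 ^ 2 + a2 ^ 2 + 2 * (a1 * a3) := by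
    have : 2 * P0 + a0 + a2 ≤ a0 ^ 2 + a2 ^ 2 + 2 * (a1 * a3) := by omega
    exact_mod_cast this
  have T2 : 2 * (P2 : ℝ) + a1 + a3 ≤ a1 ^ 2 + a3 ^ 2 + 2 * (a0 * a2) := by
    have : 2 * P2 + a1 + a3 ≤ a1 ^ 2 + a3 ^ 2 + 2 * (a0 * a2) := by omega
    exact_mod_cast this
  have z0 : (0 : ℝ) ≤ a0 := Nat.cast_nonneg _
  have z1 : (0 : ℝ) ≤ a1 := Nat.cast_nonneg _
  have z2 : (0 : ℝ) ≤ a2 := Nat.cast_nonneg _
  have z3 : (0 : ℝ) ≤ a3 := Nat.cast_nonneg _
  have z02 : (0 : ℝ) ≤ a0 * a2 := mul_nonneg z0 z2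
  have z13 : (0 : ℝ) ≤ a1 * a3 := mul_nonneg z1 z3
  suffices hR : (n : ℝ) ≤ ((a0 : ℝ) + a2 + (a1 + a3)) ^ 2 by exact_mod_cast hR
  rcases h3 with hc | hc
  · have hc' : 3 * ((a0 : ℝ) + a2) ≤ a0 + a2 + (a1 + a3) := by exact_mod_cast hc
    rcases Nat.eq_zero_or_pos (a0 + a2) with hz | hz
    · obtain ⟨rfl, rfl⟩ : a0 = 0 ∧ a2 = 0 := by omega
      simp only [Nat.cast_zero, zero_add, add_zero] at *
      rcases Nat.eq_zero_or_pos (a1 + a3) with hz1 | hz1
      · obtain ⟨rfl, rfl⟩ : a1 = 0 ∧ a3 = 0 := by omega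
        simp only [Nat.cast_zero] at *
        nlinarith
      · rcases Nat.lt_or_ge 1 (a1 + a3) with hz2 | hz2
        · have hz2' : (2 : ℝ) ≤ a1 + a3 := by exact_mod_cast hz2
          nlinarith [sq_nonneg ((a1 : ℝ) - a3)]
        · have h1 : (a1 : ℝ) + a3 = 1 := by
            have : a1 + a3 = 1 := by omega
            exact_mod_cast this
          have hz : (a1 : ℝ) ^ 2 + a3 ^ 2 + 2 * (a1 * a3) = 1 := by
            have : ((a1 : ℝ) + a3) ^ 2 = 1 := by rw [h1]; norm_num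
            linarith [this]
          rw [h1]
          nlinarith
    · have hz' : (1 : ℝ) ≤ a0 + a2 := by exact_mod_cast hz
      have hA : (n : ℝ) ≤ 2 * (a0 + a2) * (a0 + a2 + (a1 + a3)) + (a0 + a2) ^ 2 +
          (a1 + a3) ^ 2 / 2 := by
        nlinarith [sq_nonneg ((a1 : ℝ) - a3)]
      exact key _ _ _ (by positivity) (by positivity) (by linarith) hA
  · have hc' : 3 * ((a1 : ℝ) + a3) ≤ a0 + a2 + (a1 + a3) := by exact_mod_cast hc
    have hA : (n : ℝ) ≤ 2 * (a1 + a3) * (a0 + a2 + (a1 + a3)) + (a1 + a3) ^ 2 +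
        (a0 + a2) ^ 2 / 2 := by
      nlinarith [sq_nonneg ((a0 : ℝ) - a2)]
    rw [add_comm ((a0 : ℝ) + a2)] at hA ⊢
    exact key _ _ _ (by positivity) (by positivity) (by linarith) hA

/-- maximal 3-free sets exist -/
theorem exists_max (n : ℕ) : ∃ A : Finset ℕ, IsMaxThreeFree n A := by
  classical
  have hne : ((Finset.Icc 1 n).powerset.filter (fun A => ThreeFree A)).Nonempty := by
    refine ⟨∅, ?_⟩
    rw [Finset.mem_filter]
    refine ⟨by simp, ?_⟩
    intro a ha
    simp at ha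
  obtain ⟨A, hA, hmax⟩ := Finset.exists_max_image _ Finset.card hne
  rw [Finset.mem_filter, Finset.mem_powerset] at hA
  refine ⟨A, hA.1, hA.2, ?_⟩
  intro x hx hxA hfree
  have := hmax (insert x A) (by
    rw [Finset.mem_filter, Finset.mem_powerset]
    refine ⟨?_, hfree⟩
    intro y hy
    rw [Finset.mem_insert] at hy
    rcases hy with rfl | hy
    · exact hx
    · exact hA.1 hy)
  rw [Finset.card_insert_of_notMem hxA] at this
  omega

theorem mu_spec (n : ℕ) : ∃ A : Finset ℕ, IsMaxThreeFree n A ∧ A.card = mu n := by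
  have : mu n ∈ {k | ∃ A : Finset ℕ, IsMaxThreeFree n A ∧ A.card = k} := by
    apply Nat.sInf_mem
    obtain ⟨A, hA⟩ := exists_max n
    exact ⟨_, A, hA, rfl⟩
  exact this

theorem result :
    (∀ n : ℕ, (0.8935 : ℝ) * √n ≤ mu n) ∧
    (∀ (n : ℕ) (A : Finset ℕ), IsMaxThreeFree n A →
      (n : ℝ) ≤ (27 / 2 - 5 * √6) * (A.card : ℝ) ^ 2) ∧
    (∀ (n : ℕ) (A : Finset ℕ), IsMaxThreeFree n A →
      (3 * (A.filter (fun a => a % 2 = 0)).card ≤ A.card ∨
        3 * (A.filter (fun a => a % 2 = 1)).card ≤ A.card) →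
      √(n : ℝ) ≤ A.card) := by
  refine ⟨?_, fun n A h => bound h, ?_⟩
  · intro n
    obtain ⟨A, hA, hc⟩ := mu_spec n
    have hb := bound hA
    rw [hc] at hb
    have h6 : (2.449489 : ℝ) ≤ √6 := Real.le_sqrt_of_sq_le (by norm_num)
    have h1 : (0.8935 * √(n : ℝ)) ^ 2 ≤ (mu n : ℝ) ^ 2 := by
      rw [mul_pow, Real.sq_sqrt (Nat.cast_nonneg n)]
      have hm : (0 : ℝ) ≤ (mu n : ℝ) ^ 2 := sq_nonneg _
      have h2 : (n : ℝ) ≤ (27 / 2 - 5 * 2.449489) * (mu n : ℝ) ^ 2 := by nlinarith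
      nlinarith
    exact le_of_sq_le_sq h1 (Nat.cast_nonneg _)
  · intro n A h h3
    have := third h h3
    rw [Real.sqrt_le_left (Nat.cast_nonneg _)]
    exact_mod_cast this

end Pool.Agent.Results.MP_61673a_co.ParityBound
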